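import Pool.Agent.Helper64.BKA.Stmts3

/-!
# Complex conjugation of the Euler product of a representation with real traces
-/

set_option autoImplicit false

open scoped Classical ComplexConjugate

namespace BKA

namespace CJGAux

theorem conj_ext {G : Type} [Group G] [Fintype G] (H : Subgroup G) (χ : H →* ℂˣ) (y : G) :
    conj (ext H χ y) = ext H χ⁻¹ y := by
  unfold ext
  by_cases h : y ∈ H
  · rw [dif_pos h, dif_pos h, MonoidHom.inv_apply, Units.val_inv_eq_inv_val]
    symm
    refine Complex.inv_eq_conj ?_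
    refine Complex.norm_eq_one_of_pow_eq_one (n := Nat.card H) ?_ Nat.card_pos.ne'
    rw [← Units.val_pow_eq_pow_val, ← map_pow, pow_card_eq_one', map_one, Units.val_one]
  · rw [dif_neg h, dif_neg h, map_zero]

theorem conj_euler {G : Type} [Group G] [Fintype G] (H : Subgroup G) (χ : H →* ℂˣ) (g : G)
    (Y : ℂ) : conj (euler H χ g Y) = euler H χ⁻¹ g (conj Y) := by
  unfold euler
  rw [map_prod]
  refine Finset.prod_congr rfl fun o _ => ?_
  rw [map_sub, map_one, map_mul, map_pow, conj_ext]

theorem conj_cpow (n : ℕ) (s : ℂ) : conj ((n : ℂ) ^ (-(conj s))) = (n : ℂ) ^ (-s) := by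
  have h : ((n : ℂ)).arg ≠ Real.pi := by
    rw [Complex.natCast_arg]
    exact Real.pi_pos.ne
  have h1 := Complex.cpow_conj (n : ℂ) (-s) h
  rw [map_neg, Complex.conj_natCast] at h1
  rw [h1, Complex.conj_conj]

theorem conj_tprod {I : Type} (f : I → ℂ) : conj (∏' v, f v) = ∏' v, conj (f v) := by
  exact Function.LeftInverse.map_tprod (L := SummationFilter.unconditional I) f
    (g := (starRingEnd ℂ)) (g' := (starRingEnd ℂ))
    Complex.continuous_conj Complex.continuous_conj Complex.conj_conj

theorem conj_pair {a b : ℂ} (h1 : (a + b).im = 0) (h2 : (a * b).im = 0) :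
    (conj a = a ∧ conj b = b) ∨ (conj a = b ∧ conj b = a) := by
  have h3 : conj (a + b) = a + b := Complex.conj_eq_iff_im.2 h1
  have h4 : conj (a * b) = a * b := Complex.conj_eq_iff_im.2 h2
  rw [map_add] at h3
  rw [map_mul] at h4
  have h5 : (conj a - a) * (conj a - b) = 0 := by
    linear_combination (conj a) * h3 - h4
  rcases mul_eq_zero.1 h5 with h | h
  · left
    have h6 : conj a = a := sub_eq_zero.1 h
    refine ⟨h6, ?_⟩
    linear_combination h3 - h6
  · right
    have h6 : conj a = b := sub_eq_zero.1 h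
    refine ⟨h6, ?_⟩
    linear_combination h3 - h6

end CJGAux

open CJGAux

theorem st_CJG : ST_CJG := by
  intro G _ _ I q g α H χ s h1 h2
  unfold LL
  rw [conj_tprod]
  refine tprod_congr fun v => ?_
  rw [map_prod]
  simp only [Fin.prod_univ_two, map_inv₀, conj_euler, map_mul, conj_cpow]
  rcases conj_pair (h1 v) (h2 v) with ⟨h3, h4⟩ | ⟨h3, h4⟩
  · rw [h3, h4]
  · rw [h3, h4, mul_comm]

end BKA
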