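import Pool.Agent.Helper64.BKA.Stmts

/-!
# BKA: module SEL (the dimensions of the Selmer groups are additive)
-/

set_option autoImplicit false
set_option linter.unusedSectionVars false
open scoped Classical

namespace BKA
namespace Sel

/-! ## Linear algebra: eigenspaces of a representation of a finite group -/

section abs

variable {G k X : Type} [Group G] [Fintype G] [Field k] [CharZero k] [AddCommGroup X] [Module k X]

/-- the subspace of `X` on which `H` acts through `χ⁻¹` -/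
def eig (τ : G →* (X →ₗ[k] X)) (H : Subgroup G) (χ : H →* kˣ) : Submodule k X where
  carrier := {x | ∀ h : H, τ h x = ((χ h : kˣ) : k)⁻¹ • x}
  add_mem' := by
    intro a b ha hb h
    rw [map_add, ha h, hb h, smul_add]
  zero_mem' := by
    intro h
    simp
  smul_mem' := by
    intro c x hx h
    rw [map_smul, hx h, smul_comm]

/-- the projector onto `eig` -/
noncomputable def proj (τ : G →* (X →ₗ[k] X)) (H : Subgroup G) (χ : H →* kˣ) : X →ₗ[k] X :=
  (Nat.card H : k)⁻¹ • ∑ h : H, ((χ h : kˣ) : k) • τ h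

lemma proj_apply (τ : G →* (X →ₗ[k] X)) (H : Subgroup G) (χ : H →* kˣ) (x : X) :
    proj τ H χ x = (Nat.card H : k)⁻¹ • ∑ h : H, ((χ h : kˣ) : k) • τ h x := by
  simp [proj, LinearMap.sum_apply]

lemma proj_isProj (τ : G →* (X →ₗ[k] X)) (H : Subgroup G) (χ : H →* kˣ) :
    LinearMap.IsProj (eig τ H χ) (proj τ H χ) := by
  have hc : (Nat.card H : k) ≠ 0 := by
    exact_mod_cast (Nat.card_pos (α := H)).ne'
  refine ⟨fun x h₀ => ?_, fun x hx => ?_⟩
  · rw [proj_apply, map_smul, map_sum, smul_comm]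
    congr 1
    rw [Finset.smul_sum]
    refine Fintype.sum_equiv (Equiv.mulLeft h₀) _ _ (fun h => ?_)
    rw [Equiv.coe_mulLeft, map_smul, smul_smul]
    have e1 : τ (h₀ : G) (τ (h : G) x) = τ ((h₀ * h : H) : G) x := by
      rw [Subgroup.coe_mul, map_mul]
      rfl
    rw [e1]
    congr 1
    rw [map_mul, Units.val_mul, ← mul_assoc, inv_mul_cancel₀ (Units.ne_zero _), one_mul]
  · rw [proj_apply]
    have : ∀ h : H, ((χ h : kˣ) : k) • τ h x = x := by
      intro h
      rw [hx h, smul_smul, mul_inv_cancel₀ (Units.ne_zero _), one_smul]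
    rw [Finset.sum_congr rfl (fun h _ => this h), Finset.sum_const, Finset.card_univ,
      ← Nat.card_eq_fintype_card, ← Nat.cast_smul_eq_nsmul k, smul_smul, inv_mul_cancel₀ hc,
      one_smul]

lemma sum_ext (H : Subgroup G) (χ : H →* kˣ) (θ : G → k) :
    ∑ g : G, ext H χ g * θ g = ∑ h : H, ((χ h : kˣ) : k) * θ h := by
  symm
  refine Fintype.sum_of_injective (Subtype.val : H → G) Subtype.val_injective _ _ ?_ ?_
  · intro g hg
    have : g ∉ H := fun h => hg ⟨⟨g, h⟩, rfl⟩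
    rw [ext, dif_neg this, zero_mul]
  · intro h
    rw [ext, dif_pos h.2]

lemma finrank_eig [FiniteDimensional k X] (τ : G →* (X →ₗ[k] X)) (H : Subgroup G)
    (χ : H →* kˣ) :
    ((Module.finrank k (eig τ H χ) : ℕ) : k) =
      (Nat.card H : k)⁻¹ * ∑ g : G, ext H χ g * LinearMap.trace k X (τ g) := by
  rw [← (proj_isProj τ H χ).trace, proj, map_smul, map_sum, sum_ext, smul_eq_mul]
  congr 1
  refine Finset.sum_congr rfl (fun h _ => ?_)
  rw [map_smul, smul_eq_mul]

lemma eig_additive (fro : ST_FRO) [FiniteDimensional k X] (τ : G →* (X →ₗ[k] X)) (r : ℕ)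
    (H : Fin r → Subgroup G) (χ : ∀ i, H i →* kˣ) (n : Fin r → ℤ)
    (hn : ∀ g : G, ∑ i, (n i : k) * ind (H i) (χ i) g = 0) :
    ∑ i, n i * (Module.finrank k (eig τ (H i) (χ i)) : ℤ) = 0 := by
  have key : ∀ i, ((Module.finrank k (eig τ (H i) (χ i)) : ℕ) : k) =
      (Nat.card G : k)⁻¹ * ∑ g : G, ind (H i) (χ i) g * LinearMap.trace k X (τ g) := by
    intro i
    rw [finrank_eig, fro G k (H i) (χ i) (fun g => LinearMap.trace k X (τ g))]
    intro x g
    have e1 : τ (x⁻¹ * g * x) = τ (x⁻¹ * g) * τ x := map_mul τ _ _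
    have e2 : τ x * τ (x⁻¹ * g) = τ g := by
      rw [← map_mul τ, mul_inv_cancel_left]
    show LinearMap.trace k X (τ (x⁻¹ * g * x)) = LinearMap.trace k X (τ g)
    rw [e1, LinearMap.trace_mul_comm, e2]
  have h2 : ((∑ i, n i * (Module.finrank k (eig τ (H i) (χ i)) : ℤ) : ℤ) : k) = 0 := by
    push_cast
    have h3 : ∀ i, (n i : k) * ((Module.finrank k (eig τ (H i) (χ i)) : ℕ) : k) =
        (Nat.card G : k)⁻¹ * ∑ g : G, ((n i : k) * ind (H i) (χ i) g) *
          LinearMap.trace k X (τ g) := by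
      intro i
      rw [key i, mul_left_comm, Finset.mul_sum]
      congr 1
      refine Finset.sum_congr rfl (fun g _ => ?_)
      rw [mul_assoc]
    rw [Finset.sum_congr rfl (fun i _ => h3 i), ← Finset.mul_sum, Finset.sum_comm]
    have h4 : ∀ g : G, ∑ i, ((n i : k) * ind (H i) (χ i) g) * LinearMap.trace k X (τ g) = 0 := by
      intro g
      rw [← Finset.sum_mul, hn g, zero_mul]
    rw [Finset.sum_congr rfl (fun g _ => h4 g), Finset.sum_const_zero, mul_zero]
  exact_mod_cast h2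

end abs

/-! ## Cocycles -/

section coc

variable {k Γ : Type} [Field k] [TopologicalSpace k] [IsTopologicalRing k] [Group Γ]
  [TopologicalSpace Γ] [IsTopologicalGroup Γ] {d : ℕ}

lemma vec_add (ρ : Γ →* Matrix.GeneralLinearGroup (Fin d) k) (g : Γ) (v w : Fin d → k) :
    vec ρ g (v + w) = vec ρ g v + vec ρ g w := by
  simp [vec, Matrix.mulVec_add]

lemma vec_smul (ρ : Γ →* Matrix.GeneralLinearGroup (Fin d) k) (g : Γ) (a : k) (v : Fin d → k) :
    vec ρ g (a • v) = a • vec ρ g v := by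
  simp [vec, Matrix.mulVec_smul]

lemma vec_zero (ρ : Γ →* Matrix.GeneralLinearGroup (Fin d) k) (g : Γ) :
    vec ρ g (0 : Fin d → k) = 0 := by
  simp [vec]

lemma vec_mul (ρ : Γ →* Matrix.GeneralLinearGroup (Fin d) k) (g h : Γ) (v : Fin d → k) :
    vec ρ (g * h) v = vec ρ g (vec ρ h v) := by
  simp [vec, Matrix.mulVec_mulVec]

lemma vec_one (ρ : Γ →* Matrix.GeneralLinearGroup (Fin d) k) (v : Fin d → k) :
    vec ρ (1 : Γ) v = v := by
  simp [vec]

/-- `vec ρ g` as a linear map -/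
noncomputable def vecL (ρ : Γ →* Matrix.GeneralLinearGroup (Fin d) k) (g : Γ) :
    (Fin d → k) →ₗ[k] (Fin d → k) where
  toFun := vec ρ g
  map_add' := vec_add ρ g
  map_smul' := fun a v => vec_smul ρ g a v

@[simp] lemma vecL_apply (ρ : Γ →* Matrix.GeneralLinearGroup (Fin d) k) (g : Γ) (v : Fin d → k) :
    vecL ρ g v = vec ρ g v := rfl

/-- the space of Selmer cocycles -/
def selM (ρ : Γ →* Matrix.GeneralLinearGroup (Fin d) k) (C : Local ρ) (U : Subgroup Γ)
    (χ : U →* kˣ) : Submodule k (U → Fin d → k) where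
  carrier := {c | IsSel ρ C U χ c}
  add_mem' := by
    rintro a b ⟨ha1, ha2, ha3⟩ ⟨hb1, hb2, hb3⟩
    refine ⟨ha1.add hb1, fun g h => ?_, fun i γ => ?_⟩
    · simp only [Pi.add_apply]
      rw [ha2, hb2, vec_add, smul_add]
      abel
    · obtain ⟨y, hy⟩ := ha3 i γ
      obtain ⟨z, hz⟩ := hb3 i γ
      refine ⟨y + z, fun g h => ?_⟩
      simp only [Pi.add_apply]
      rw [vec_add, map_add, hy g h, hz g h, map_add, smul_add]
      abel
  zero_mem' := by
    refine ⟨continuous_const, fun g h => ?_, fun i γ => ⟨0, fun g h => ?_⟩⟩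
    · simp [vec_zero]
    · simp [vec_zero]
  smul_mem' := by
    rintro a c ⟨h1, h2, h3⟩
    refine ⟨h1.const_smul a, fun g h => ?_, fun i γ => ?_⟩
    · simp only [Pi.smul_apply]
      rw [h2, vec_smul, smul_add, smul_comm]
    · obtain ⟨y, hy⟩ := h3 i γ
      refine ⟨a • y, fun g h => ?_⟩
      simp only [Pi.smul_apply]
      rw [vec_smul, map_smul, hy g h, map_smul, smul_sub, smul_comm]

/-- the space of coboundaries -/
def cobM (ρ : Γ →* Matrix.GeneralLinearGroup (Fin d) k) (U : Subgroup Γ)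
    (χ : U →* kˣ) : Submodule k (U → Fin d → k) where
  carrier := {c | IsCob ρ U χ c}
  add_mem' := by
    rintro a b ⟨v, hv⟩ ⟨w, hw⟩
    refine ⟨v + w, fun g => ?_⟩
    simp only [Pi.add_apply]
    rw [hv, hw, vec_add, smul_add]
    abel
  zero_mem' := ⟨0, fun g => by simp [vec_zero]⟩
  smul_mem' := by
    rintro a c ⟨v, hv⟩
    refine ⟨a • v, fun g => ?_⟩
    simp only [Pi.smul_apply]
    rw [hv, vec_smul, smul_sub, smul_comm]

lemma mem_selM {ρ : Γ →* Matrix.GeneralLinearGroup (Fin d) k} {C : Local ρ} {U : Subgroup Γ}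
    {χ : U →* kˣ} {c : U → Fin d → k} : c ∈ selM ρ C U χ ↔ IsSel ρ C U χ c := Iff.rfl

lemma mem_cobM {ρ : Γ →* Matrix.GeneralLinearGroup (Fin d) k} {U : Subgroup Γ}
    {χ : U →* kˣ} {c : U → Fin d → k} : c ∈ cobM ρ U χ ↔ IsCob ρ U χ c := Iff.rfl

/-- the action of `u` on the functions on `N` -/
noncomputable def aL (ρ : Γ →* Matrix.GeneralLinearGroup (Fin d) k) (N : Subgroup Γ) [hN : N.Normal]
    (u : Γ) : (N → Fin d → k) →ₗ[k] (N → Fin d → k) where
  toFun := fun c n => vec ρ u (c ⟨u⁻¹ * n * u, by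
    have := hN.conj_mem n n.2 u⁻¹
    simpa using this⟩)
  map_add' := by
    intro a b
    funext n
    simp only [Pi.add_apply]
    rw [vec_add]
  map_smul' := by
    intro a c
    funext n
    simp only [Pi.smul_apply, RingHom.id_apply]
    rw [vec_smul]

lemma aL_apply (ρ : Γ →* Matrix.GeneralLinearGroup (Fin d) k) (N : Subgroup Γ) [hN : N.Normal]
    (u : Γ) (c : N → Fin d → k) (n : N) :
    aL ρ N u c n = vec ρ u (c ⟨u⁻¹ * n * u, by
      have := hN.conj_mem n n.2 u⁻¹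
      simpa using this⟩) := rfl

lemma aL_one (ρ : Γ →* Matrix.GeneralLinearGroup (Fin d) k) (N : Subgroup Γ) [N.Normal] :
    aL (k := k) ρ N 1 = 1 := by
  refine LinearMap.ext (fun c => ?_)
  funext n
  rw [aL_apply, vec_one]
  have : (⟨(1 : Γ)⁻¹ * n * 1, by simp⟩ : N) = n := Subtype.ext (by simp)
  rw [this]
  rfl

lemma aL_mul (ρ : Γ →* Matrix.GeneralLinearGroup (Fin d) k) (N : Subgroup Γ) [N.Normal]
    (u v : Γ) : aL (k := k) ρ N (u * v) = aL ρ N u * aL ρ N v := by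
  refine LinearMap.ext (fun c => ?_)
  funext n
  rw [aL_apply, Module.End.mul_apply, aL_apply, aL_apply, vec_mul]
  congr 3
  apply Subtype.ext
  simp [mul_assoc]

lemma aL_sel (ρ : Γ →* Matrix.GeneralLinearGroup (Fin d) k) (C : Local ρ) (N : Subgroup Γ)
    [hN : N.Normal] (u : Γ) (c : N → Fin d → k) (hc : c ∈ selM ρ C N 1) :
    aL ρ N u c ∈ selM ρ C N 1 := by
  obtain ⟨h1, h2, h3⟩ := hc
  refine ⟨?_, fun g h => ?_, fun i γ => ?_⟩
  · have hcont : Continuous (fun v : Fin d → k => vec ρ u v) := by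
      unfold vec
      exact Continuous.matrix_mulVec continuous_const continuous_id
    refine hcont.comp (h1.comp ?_)
    refine Continuous.subtype_mk ?_ _
    exact (continuous_const.mul continuous_subtype_val).mul continuous_const
  · rw [aL_apply, aL_apply, aL_apply]
    have e1 : (⟨u⁻¹ * ((g * h : N) : Γ) * u, by
        have := hN.conj_mem (g * h : N) (g * h : N).2 u⁻¹
        simpa using this⟩ : N) = ⟨u⁻¹ * g * u, by
        have := hN.conj_mem g g.2 u⁻¹
        simpa using this⟩ * ⟨u⁻¹ * h * u, by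
        have := hN.conj_mem h h.2 u⁻¹
        simpa using this⟩ := by
      apply Subtype.ext
      simp [mul_assoc]
    rw [e1, h2]
    simp only [MonoidHom.one_apply, Units.val_one, one_smul]
    rw [vec_add, ← vec_mul, ← vec_mul]
    congr 2
    group
  · obtain ⟨y, hy⟩ := h3 i (u⁻¹ * γ)
    refine ⟨y, fun g h => ?_⟩
    have hm : u⁻¹ * γ * g * (u⁻¹ * γ)⁻¹ ∈ N := by
      have := hN.conj_mem _ h u⁻¹
      have e : u⁻¹ * (γ * g * γ⁻¹) * u⁻¹⁻¹ = u⁻¹ * γ * g * (u⁻¹ * γ)⁻¹ := by group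
      rwa [e] at this
    have := hy g hm
    rw [aL_apply, ← vec_mul]
    have e2 : (⟨u⁻¹ * ((⟨γ * g * γ⁻¹, h⟩ : N) : Γ) * u, by
        have := hN.conj_mem _ h u⁻¹
        simpa using this⟩ : N) = ⟨u⁻¹ * γ * g * (u⁻¹ * γ)⁻¹, hm⟩ := by
      apply Subtype.ext
      show u⁻¹ * (γ * g * γ⁻¹) * u = u⁻¹ * γ * g * (u⁻¹ * γ)⁻¹
      group
    have e3 : γ⁻¹ * u = (u⁻¹ * γ)⁻¹ := by group
    rw [e2, e3, this]
    simp only [MonoidHom.one_apply, Units.val_one]

lemma aL_cob (ρ : Γ →* Matrix.GeneralLinearGroup (Fin d) k) (N : Subgroup Γ)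
    [hN : N.Normal] (u : Γ) (c : N → Fin d → k) (hc : c ∈ cobM ρ N 1) :
    aL ρ N u c ∈ cobM ρ N 1 := by
  obtain ⟨v, hv⟩ := hc
  refine ⟨vec ρ u v, fun n => ?_⟩
  rw [aL_apply, hv]
  simp only [MonoidHom.one_apply, Units.val_one, one_smul]
  have : ∀ a b : Fin d → k, vec ρ u (a - b) = vec ρ u a - vec ρ u b := fun a b =>
    map_sub (vecL ρ u) a b
  rw [this, ← vec_mul, ← vec_mul]
  congr 2
  group

/-- the quotient of the functions on `N` by the coboundaries -/
abbrev QQ (ρ : Γ →* Matrix.GeneralLinearGroup (Fin d) k) (N : Subgroup Γ) : Type :=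
  (N → Fin d → k) ⧸ cobM ρ N (1 : N →* kˣ)

/-- the Selmer group over the big field -/
abbrev XX (ρ : Γ →* Matrix.GeneralLinearGroup (Fin d) k) (C : Local ρ) (N : Subgroup Γ) : Type :=
  ((selM ρ C N 1).map (cobM ρ N (1 : N →* kˣ)).mkQ : Submodule k (QQ ρ N))

/-- the class of a Selmer cocycle -/
noncomputable def clsL (ρ : Γ →* Matrix.GeneralLinearGroup (Fin d) k) (C : Local ρ)
    (N : Subgroup Γ) : selM ρ C N 1 →ₗ[k] XX ρ C N :=
  (cobM ρ N (1 : N →* kˣ)).mkQ.submoduleMap (selM ρ C N 1)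

lemma clsL_surj (ρ : Γ →* Matrix.GeneralLinearGroup (Fin d) k) (C : Local ρ)
    (N : Subgroup Γ) : Function.Surjective (clsL ρ C N) :=
  LinearMap.submoduleMap_surjective _ _

lemma clsL_eq_zero (ρ : Γ →* Matrix.GeneralLinearGroup (Fin d) k) (C : Local ρ)
    (N : Subgroup Γ) (z : selM ρ C N 1) :
    clsL ρ C N z = 0 ↔ (z : N → Fin d → k) ∈ cobM ρ N (1 : N →* kˣ) := by
  rw [← Subtype.coe_inj]
  show (cobM ρ N (1 : N →* kˣ)).mkQ z = 0 ↔ _
  rw [Submodule.mkQ_apply, Submodule.Quotient.mk_eq_zero]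

/-- the action on `QQ` -/
noncomputable def aQ (ρ : Γ →* Matrix.GeneralLinearGroup (Fin d) k) (N : Subgroup Γ) [N.Normal]
    (u : Γ) : QQ ρ N →ₗ[k] QQ ρ N :=
  (cobM ρ N (1 : N →* kˣ)).mapQ (cobM ρ N (1 : N →* kˣ)) (aL ρ N u)
    (fun c hc => aL_cob ρ N u c hc)

lemma aQ_mem (ρ : Γ →* Matrix.GeneralLinearGroup (Fin d) k) (C : Local ρ) (N : Subgroup Γ)
    [N.Normal] (u : Γ) (x : QQ ρ N) (hx : x ∈ (selM ρ C N 1).map (cobM ρ N (1 : N →* kˣ)).mkQ) :
    aQ ρ N u x ∈ (selM ρ C N 1).map (cobM ρ N (1 : N →* kˣ)).mkQ := by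
  obtain ⟨c, hc, rfl⟩ := hx
  exact ⟨aL ρ N u c, aL_sel ρ C N u c hc, rfl⟩

/-- the action on `XX` -/
noncomputable def aX (ρ : Γ →* Matrix.GeneralLinearGroup (Fin d) k) (C : Local ρ)
    (N : Subgroup Γ) [N.Normal] (u : Γ) : XX ρ C N →ₗ[k] XX ρ C N :=
  (aQ ρ N u).restrict (aQ_mem ρ C N u)

lemma aX_cls (ρ : Γ →* Matrix.GeneralLinearGroup (Fin d) k) (C : Local ρ)
    (N : Subgroup Γ) [N.Normal] (u : Γ) (z : selM ρ C N 1) :
    aX ρ C N u (clsL ρ C N z) = clsL ρ C N ⟨aL ρ N u z, aL_sel ρ C N u z z.2⟩ := rfl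

/-- the action on `XX` as a homomorphism -/
noncomputable def tX (ρ : Γ →* Matrix.GeneralLinearGroup (Fin d) k) (C : Local ρ)
    (N : Subgroup Γ) [N.Normal] : Γ →* (XX ρ C N →ₗ[k] XX ρ C N) where
  toFun := aX ρ C N
  map_one' := by
    refine LinearMap.ext (fun x => ?_)
    obtain ⟨z, rfl⟩ := clsL_surj ρ C N x
    rw [aX_cls]
    show _ = clsL ρ C N z
    congr 1
    apply Subtype.ext
    show aL ρ N 1 (z : N → Fin d → k) = z
    rw [aL_one]
    rfl
  map_mul' := by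
    intro u v
    refine LinearMap.ext (fun x => ?_)
    obtain ⟨z, rfl⟩ := clsL_surj ρ C N x
    rw [Module.End.mul_apply, aX_cls, aX_cls, aX_cls]
    congr 1
    apply Subtype.ext
    show aL ρ N (u * v) (z : N → Fin d → k) = aL ρ N u (aL ρ N v z)
    rw [aL_mul]
    rfl

lemma tX_apply (ρ : Γ →* Matrix.GeneralLinearGroup (Fin d) k) (C : Local ρ)
    (N : Subgroup Γ) [N.Normal] (u : Γ) (z : selM ρ C N 1) :
    tX ρ C N u (clsL ρ C N z) = clsL ρ C N ⟨aL ρ N u z, aL_sel ρ C N u z z.2⟩ := rfl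

lemma tX_ker (ρ : Γ →* Matrix.GeneralLinearGroup (Fin d) k) (C : Local ρ)
    (N : Subgroup Γ) [hN : N.Normal] : N ≤ (tX ρ C N).ker := by
  intro u hu
  rw [MonoidHom.mem_ker]
  refine LinearMap.ext (fun x => ?_)
  obtain ⟨z, rfl⟩ := clsL_surj ρ C N x
  rw [tX_apply, Module.End.one_apply, ← sub_eq_zero, ← map_sub, clsL_eq_zero]
  obtain ⟨c, hc⟩ := z
  obtain ⟨-, h2, -⟩ := hc
  refine ⟨c ⟨u, hu⟩, fun n => ?_⟩
  show aL ρ N u c n - c n = _
  rw [aL_apply]
  simp only [MonoidHom.one_apply, Units.val_one, one_smul] at h2 ⊢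
  have e1 : (⟨u⁻¹ * n * u, by
      have := hN.conj_mem n n.2 u⁻¹
      simpa using this⟩ : N) = ⟨u, hu⟩⁻¹ * (n * ⟨u, hu⟩) := by
    apply Subtype.ext
    simp [mul_assoc]
  have h1 : c 1 = 0 := by
    have := h2 1 1
    rw [mul_one] at this
    simp only [OneMemClass.coe_one, vec_one] at this
    simpa using this
  have h3 : c ⟨u, hu⟩ + vec ρ u (c (⟨u, hu⟩⁻¹)) = 0 := by
    have := h2 ⟨u, hu⟩ (⟨u, hu⟩⁻¹)
    rw [mul_inv_cancel, h1] at this
    exact this.symm
  rw [e1, h2, h2, vec_add, ← vec_mul]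
  have e2 : u * ((⟨u, hu⟩⁻¹ : N) : Γ) = 1 := by simp
  rw [e2, vec_one]
  have h4 : vec ρ u (c (⟨u, hu⟩⁻¹)) = - c ⟨u, hu⟩ := by
    rw [eq_neg_iff_add_eq_zero, add_comm]
    exact h3
  rw [h4]
  abel

/-- the representation of the finite group `Γ ⧸ N` -/
noncomputable def tau (ρ : Γ →* Matrix.GeneralLinearGroup (Fin d) k) (C : Local ρ)
    (N : Subgroup Γ) [N.Normal] : (Γ ⧸ N) →* (XX ρ C N →ₗ[k] XX ρ C N) :=
  QuotientGroup.lift N (tX ρ C N) (tX_ker ρ C N)

lemma tau_mk (ρ : Γ →* Matrix.GeneralLinearGroup (Fin d) k) (C : Local ρ)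
    (N : Subgroup Γ) [N.Normal] (u : Γ) :
    tau ρ C N (QuotientGroup.mk u : Γ ⧸ N) = tX ρ C N u := rfl

/-- The Selmer group of `V ⊗ χ` over the fixed field of `H` is the eigenspace `eig`. -/
lemma basis_eig [CharZero k] (sres : ST_SRES)
    (ρ : Γ →* Matrix.GeneralLinearGroup (Fin d) k) (C : Local ρ) (N : Subgroup Γ) [N.Normal]
    [Fintype (Γ ⧸ N)] (hρ : Continuous ρ) (hN : IsOpen (N : Set Γ)) (H : Subgroup (Γ ⧸ N))
    (χ : H →* kˣ) (s : ℕ) (hs : SelDimG ρ C N H χ s) :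
    ∃ r : Fin s → XX ρ C N, LinearIndependent k r ∧
      Submodule.span k (Set.range r) = eig (tau ρ C N) H χ := by
  set U : Subgroup Γ := H.comap (QuotientGroup.mk' N) with hU
  set χU : U →* kˣ := χ.comp ((QuotientGroup.mk' N).subgroupComap H) with hχU
  have hNU : N ≤ U := by
    intro n hn
    rw [hU, Subgroup.mem_comap]
    have : (QuotientGroup.mk' N) n = 1 := (QuotientGroup.eq_one_iff n).2 hn
    rw [this]
    exact H.one_mem
  have hχN : ∀ n : U, (n : Γ) ∈ N → χU n = 1 := by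
    intro n hn
    have e : (QuotientGroup.mk' N).subgroupComap H n = 1 := by
      apply Subtype.ext
      show (QuotientGroup.mk' N) (n : Γ) = 1
      exact (QuotientGroup.eq_one_iff (n : Γ)).2 hn
    rw [hχU, MonoidHom.comp_apply, e, map_one]
  obtain ⟨hres, hsurj⟩ := sres k Γ d ρ C N U hNU χU hρ hN hχN
  obtain ⟨b, hb, hb'⟩ := hs
  change ∀ i, IsSel ρ C U χU (b i) at hb
  change ∀ c, IsSel ρ C U χU c → ∃! a : Fin s → k, IsCob ρ U χU (fun g => c g - ∑ i, a i • b i g)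
    at hb'
  have hmem : ∀ j, (fun n : N => b j ⟨n, hNU n.2⟩) ∈ selM ρ C N 1 := fun j =>
    (hres (b j) (hb j)).1
  refine ⟨fun j => clsL ρ C N ⟨fun n : N => b j ⟨n, hNU n.2⟩, hmem j⟩, ?_, ?_⟩
  · rw [Fintype.linearIndependent_iff]
    intro a ha
    have h1 : clsL ρ C N (∑ j, a j • ⟨fun n : N => b j ⟨n, hNU n.2⟩, hmem j⟩) = 0 := by
      rw [map_sum]
      rw [← ha]
      refine Finset.sum_congr rfl (fun j _ => ?_)
      rw [map_smul]
    rw [clsL_eq_zero] at h1
    have hsel : (∑ j, a j • b j) ∈ selM ρ C U χU :=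
      Submodule.sum_mem _ (fun j _ => Submodule.smul_mem _ _ (hb j))
    have h2 : IsCob ρ N 1 (fun n => (∑ j, a j • b j : U → Fin d → k) ⟨n, hNU n.2⟩) := by
      have e : (fun n : N => (∑ j, a j • b j : U → Fin d → k) ⟨n, hNU n.2⟩) =
          (((∑ j, a j • (⟨fun n : N => b j ⟨n, hNU n.2⟩, hmem j⟩ : selM ρ C N 1) :
            selM ρ C N 1)) : N → Fin d → k) := by
        funext n
        rw [Submodule.coe_sum]
        simp only [Finset.sum_apply, Pi.smul_apply, SetLike.val_smul]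
      rw [e]
      exact h1
    have h3 := (hres _ hsel).2.1 h2
    have h4 := hb' 0 (selM ρ C U χU).zero_mem
    have h5 : (fun i => - a i) = (fun _ => (0 : k)) := by
      refine h4.unique ?_ ?_
      · have e : (fun g : U => (0 : U → Fin d → k) g - ∑ i, (- a i) • b i g) =
            (∑ j, a j • b j) := by
          funext g
          simp only [Pi.zero_apply, zero_sub, neg_smul, Finset.sum_neg_distrib, neg_neg,
            Finset.sum_apply, Pi.smul_apply]
        rw [e]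
        exact h3
      · have e : (fun g : U => (0 : U → Fin d → k) g - ∑ i, (0 : k) • b i g) = 0 := by
          funext g
          simp
        rw [e]
        exact (cobM ρ U χU).zero_mem
    intro i
    have := congrFun h5 i
    simpa using this
  · apply le_antisymm
    · rw [Submodule.span_le]
      rintro _ ⟨j, rfl⟩ h
      obtain ⟨h, hh⟩ := h
      obtain ⟨u, rfl⟩ := QuotientGroup.mk_surjective h
      have hu : u ∈ U := by
        rw [hU, Subgroup.mem_comap]
        exact hh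
      show tau ρ C N (QuotientGroup.mk u : Γ ⧸ N) _ = _
      rw [tau_mk, tX_apply, ← sub_eq_zero, ← map_smul, ← map_sub, clsL_eq_zero]
      have := (hres (b j) (hb j)).2.2 ⟨u, hu⟩
      exact this
    · intro x hx
      obtain ⟨z, rfl⟩ := clsL_surj ρ C N x
      obtain ⟨c, hc⟩ := z
      have hcob : ∀ u : U, IsCob ρ N 1 (fun n => vec ρ u (c ⟨(u : Γ)⁻¹ * n * u, by
          have := ‹N.Normal›.conj_mem n n.2 (u : Γ)⁻¹
          simpa using this⟩) - ((χU u : kˣ) : k)⁻¹ • c n) := by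
        intro u
        have h1 := hx ⟨(QuotientGroup.mk (u : Γ) : Γ ⧸ N), u.2⟩
        change tau ρ C N (QuotientGroup.mk (u : Γ) : Γ ⧸ N) _ = _ at h1
        rw [tau_mk, tX_apply, ← sub_eq_zero, ← map_smul, ← map_sub, clsL_eq_zero] at h1
        exact h1
      obtain ⟨c', hc', hcc⟩ := hsurj c hc hcob
      obtain ⟨a, ha, -⟩ := hb' c' hc'
      have h1 : (fun n : N => c' ⟨n, hNU n.2⟩ - ∑ i, a i • b i ⟨n, hNU n.2⟩) ∈
          cobM ρ N (1 : N →* kˣ) := by
        obtain ⟨v, hv⟩ := ha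
        refine ⟨v, fun n => ?_⟩
        have := hv ⟨n, hNU n.2⟩
        rw [hχN ⟨n, hNU n.2⟩ n.2] at this
        simpa using this
      have h2 : clsL ρ C N ⟨c, hc⟩ =
          ∑ i, a i • clsL ρ C N ⟨fun n : N => b i ⟨n, hNU n.2⟩, hmem i⟩ := by
        rw [← sub_eq_zero]
        simp only [← map_smul, ← map_sum, ← map_sub]
        rw [clsL_eq_zero]
        have e : ((((⟨c, hc⟩ : selM ρ C N 1) - ∑ i, a i •
            (⟨fun n : N => b i ⟨n, hNU n.2⟩, hmem i⟩ : selM ρ C N 1) : selM ρ C N 1)) :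
              N → Fin d → k) =
            (fun n : N => c' ⟨n, hNU n.2⟩ - ∑ i, a i • b i ⟨n, hNU n.2⟩) -
              (fun n : N => c' ⟨n, hNU n.2⟩ - c n) := by
          funext n
          rw [Submodule.coe_sub, Submodule.coe_sum]
          simp only [Finset.sum_apply, Pi.smul_apply, SetLike.val_smul, Pi.sub_apply]
          abel
        rw [e]
        exact (cobM ρ N (1 : N →* kˣ)).sub_mem h1 hcc
      rw [h2]
      exact Submodule.sum_mem _ (fun i _ => Submodule.smul_mem _ _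
        (Submodule.subset_span ⟨i, rfl⟩))

end coc

end Sel

theorem st_SEL (sres : ST_SRES) (fro : ST_FRO) : ST_SEL := by
  intro k Γ _ _ _ _ _ _ _ d ρ C N _ _ hρ hN s₀ h0 r H χ n s hs hrel
  obtain ⟨r0, hr0, hspan0⟩ := Sel.basis_eig sres ρ C N hρ hN ⊥ 1 s₀ h0
  have htop : Sel.eig (Sel.tau ρ C N) ⊥ (1 : (⊥ : Subgroup (Γ ⧸ N)) →* kˣ) = ⊤ := by
    rw [eq_top_iff]
    intro x _ h
    have : h = 1 := Subsingleton.elim _ _
    rw [this]
    simp
  have : FiniteDimensional k (Sel.XX ρ C N) := by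
    refine ⟨⟨(Set.finite_range r0).toFinset, ?_⟩⟩
    rw [Set.Finite.coe_toFinset, hspan0, htop]
  have hfin : ∀ i, Module.finrank k (Sel.eig (Sel.tau ρ C N) (H i) (χ i)) = s i := by
    intro i
    obtain ⟨ri, hri, hspan⟩ := Sel.basis_eig sres ρ C N hρ hN (H i) (χ i) (s i) (hs i)
    rw [← hspan, finrank_span_eq_card hri, Fintype.card_fin]
  have := Sel.eig_additive fro (Sel.tau ρ C N) r H χ n hrel
  rw [← this]
  refine Finset.sum_congr rfl (fun i _ => ?_)
  rw [hfin i]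

end BKA
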